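import Pool.Agent.Helper40.Nm.Defs2

/-!
The parts of the proof, as propositions.
-/

open CategoryTheory AlgebraicGeometry Limits TensorProduct

namespace Pool.Agent.Helper40.Nm

/-! ### Scheme part -/

/-- `M`-points of the generic fibre = sections of the Neron model. -/
def SEC : Prop :=
  ∀ (R M B : Type) [CommRing R] [IsDomain R] [IsLocalRing R] [Field M] [Algebra R M]
    [IsFractionRing R M] [CommRing B] [HopfAlgebra M B] (𝒢 : NeronLftModel R M B),
    (∀ t : B →ₐ[M] M, ∃! s : specOver (RingHom.id R) ⟶ 𝒢.G, Lifts 𝒢 t s) ∧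
    (∀ s : specOver (RingHom.id R) ⟶ 𝒢.G, ∃! t : B →ₐ[M] M, Lifts 𝒢 t s)

/-- compatibility of the group laws -/
def MULT : Prop :=
  ∀ (R M B : Type) [CommRing R] [IsDomain R] [IsLocalRing R] [Field M] [Algebra R M]
    [IsFractionRing R M] [CommRing B] [HopfAlgebra M B] (𝒢 : NeronLftModel R M B),
    (∀ (t t' : WithConv (B →ₐ[M] M)) (s s' : specOver (RingHom.id R) ⟶ 𝒢.G),
      Lifts 𝒢 t.ofConv s → Lifts 𝒢 t'.ofConv s' → Lifts 𝒢 (t * t').ofConv (s * s')) ∧
    (∀ s s' : specOver (RingHom.id R) ⟶ 𝒢.G, redk (s * s') = redk s * redk s')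

/-- every rational point of the special fibre of a smooth scheme lifts to a section -/
def LIFTK : Prop :=
  ∀ (R : Type) [CommRing R] [IsLocalRing R] [IsAdicComplete (IsLocalRing.maximalIdeal R) R]
    (G : Over (Spec (CommRingCat.of R))), Smooth G.hom →
    ∀ r : specOver (IsLocalRing.residue R) ⟶ G, ∃ s : specOver (RingHom.id R) ⟶ G, redk s = r

/-- The Neron mapping property for an open part `f ≠ 0` of affine space. -/
def NAFF : Prop :=
  ∀ (R M B : Type) [CommRing R] [IsDomain R] [IsDiscreteValuationRing R] [Field M] [Algebra R M]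
    [IsFractionRing R M] [CommRing B] [HopfAlgebra M B] (𝒢 : NeronLftModel R M B)
    (N : Type) [Fintype N] (f : MvPolynomial N R)
    (φ : B →ₐ[M] Localization.Away (MvPolynomial.map (algebraMap R M) f))
    (a a' : N → R) (e e' : Localization.Away (MvPolynomial.map (algebraMap R M) f) →ₐ[M] M)
    (s s' : specOver (RingHom.id R) ⟶ 𝒢.G),
    IsUnit (MvPolynomial.eval a f) → IsUnit (MvPolynomial.eval a' f) →
    (∀ i, e (algebraMap (MvPolynomial N M) _ (MvPolynomial.X i)) = algebraMap R M (a i)) →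
    (∀ i, e' (algebraMap (MvPolynomial N M) _ (MvPolynomial.X i)) = algebraMap R M (a' i)) →
    Lifts 𝒢 (e.comp φ) s → Lifts 𝒢 (e'.comp φ) s' →
    SameComp s s' ∧ ((∀ i, a i - a' i ∈ IsLocalRing.maximalIdeal R) → redk s = redk s')

/-- Generic constancy of the valuation of a function. -/
def GEN : Prop :=
  ∀ (R M B : Type) [CommRing R] [IsDomain R] [IsDiscreteValuationRing R]
    [IsAdicComplete (IsLocalRing.maximalIdeal R) R] [IsAlgClosed (IsLocalRing.ResidueField R)]
    [Field M] [Algebra R M] [IsFractionRing R M] [CommRing B] [IsDomain B] [HopfAlgebra M B]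
    (𝒢 : NeronLftModel R M B) (h : B) (ϖ : R), h ≠ 0 → Irreducible ϖ →
    ∃ V : 𝒢.G.left.Opens, ((V : Set 𝒢.G.left) ∩ specialFibre 𝒢.G).Nonempty ∧
      ∃ m : ℤ, ∀ (t : B →ₐ[M] M) (s : specOver (RingHom.id R) ⟶ 𝒢.G), Lifts 𝒢 t s → cpt s ∈ V →
        ∃ u : Rˣ, t h = algebraMap R M u * algebraMap R M ϖ ^ m

/-- commutative algebra for `GEN` -/
def GENA : Prop :=
  ∀ (R C : Type) [CommRing R] [IsDomain R] [IsDiscreteValuationRing R]
    [IsAlgClosed (IsLocalRing.ResidueField R)] [CommRing C] [IsDomain C] [Algebra R C]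
    [Algebra.Smooth R C] (ϖ : R) (h : C), Irreducible ϖ → ¬ IsUnit (algebraMap R C ϖ) → h ≠ 0 →
    ∃ (m : ℕ) (F : C), h = algebraMap R C ϖ ^ m * F ∧
      ∃ 𝔭 : Ideal C, 𝔭.IsPrime ∧ algebraMap R C ϖ ∈ 𝔭 ∧ F ∉ 𝔭

/-- closed points of the special fibre are reductions of sections -/
def KPT : Prop :=
  ∀ (R : Type) [CommRing R] [IsDomain R] [IsDiscreteValuationRing R]
    [IsAdicComplete (IsLocalRing.maximalIdeal R) R] [IsAlgClosed (IsLocalRing.ResidueField R)]
    (G : Over (Spec (CommRingCat.of R))), Smooth G.hom →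
    ∀ (x : G.left) (U : G.left.Opens), x ∈ specialFibre G → x ∈ U →
      ∃ s : specOver (RingHom.id R) ⟶ G, cpt s ∈ U ∧ cpt s ∈ closure {x}

/-- translations -/
def TRANS : Prop :=
  ∀ (R : Type) [CommRing R] [IsLocalRing R] (G : Over (Spec (CommRingCat.of R))) [GrpObj G]
    (s : specOver (RingHom.id R) ⟶ G),
    (∃ τ : G.left ≃ₜ G.left, (∀ r : specOver (RingHom.id R) ⟶ G, cpt (s * r) = τ (cpt r)) ∧
      ∀ x, τ x ∈ specialFibre G ↔ x ∈ specialFibre G) ∧
    (∃ τ : G.left ≃ₜ G.left, (∀ r : specOver (RingHom.id R) ⟶ G, cpt (r * s) = τ (cpt r)) ∧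
      ∀ x, τ x ∈ specialFibre G ↔ x ∈ specialFibre G)

/-- A homomorphism which is constant on the points reducing into a nonempty open set is constant
on the points reducing into a connected component. -/
def LOC : Prop :=
  ∀ (R M B : Type) [CommRing R] [IsDomain R] [IsDiscreteValuationRing R]
    [IsAdicComplete (IsLocalRing.maximalIdeal R) R] [IsAlgClosed (IsLocalRing.ResidueField R)]
    [Field M] [Algebra R M] [IsFractionRing R M] [CommRing B] [HopfAlgebra M B]
    (𝒢 : NeronLftModel R M B) (H : Type) [Group H] (Δ : WithConv (B →ₐ[M] M) →* H)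
    (V : 𝒢.G.left.Opens) (c : H),
    ((V : Set 𝒢.G.left) ∩ specialFibre 𝒢.G).Nonempty →
    (∀ (t : WithConv (B →ₐ[M] M)) (s : specOver (RingHom.id R) ⟶ 𝒢.G), Lifts 𝒢 t.ofConv s →
      cpt s ∈ V → Δ t = c) →
    ∀ (t t' : WithConv (B →ₐ[M] M)) (s s' : specOver (RingHom.id R) ⟶ 𝒢.G),
      Lifts 𝒢 t.ofConv s → Lifts 𝒢 t'.ofConv s' → SameComp s s' → Δ t = Δ t'

/-- The connected components of the special fibre are compatible with the group law. -/
def COMPG : Prop :=
  ∀ (R M B : Type) [CommRing R] [IsDomain R] [IsDiscreteValuationRing R]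
    [IsAdicComplete (IsLocalRing.maximalIdeal R) R] [IsAlgClosed (IsLocalRing.ResidueField R)]
    [Field M] [Algebra R M] [IsFractionRing R M] [CommRing B] [HopfAlgebra M B]
    (𝒢 : NeronLftModel R M B) (s s' r r' : specOver (RingHom.id R) ⟶ 𝒢.G),
    SameComp s s' → SameComp r r' → SameComp (s * r) (s' * r')

/-- From a subgroup of `M`-points to split reduction. -/
def FINS : Prop :=
  ∀ (R M B : Type) [CommRing R] [IsDomain R] [IsDiscreteValuationRing R]
    [IsAdicComplete (IsLocalRing.maximalIdeal R) R] [IsAlgClosed (IsLocalRing.ResidueField R)]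
    [Field M] [Algebra R M] [IsFractionRing R M] [CommRing B] [HopfAlgebra M B]
    (𝒢 : NeronLftModel R M B) (Λ : Subgroup (specOver (RingHom.id R) ⟶ 𝒢.G)),
    (∀ s : specOver (RingHom.id R) ⟶ 𝒢.G, ∃ l ∈ Λ, SameComp s l) →
    (∀ l ∈ Λ, ∀ l' ∈ Λ, SameComp l l' → redk l = redk l') →
    𝒢.SplitReduction

/-! ### Hopf algebra part -/

section Hopf

/-- the Galois action on the characters -/
def ACT : Prop :=
  ∀ (M E B : Type) [Field M] [Field E] [Algebra M E] [CommRing B] [HopfAlgebra M B] (g : ℕ)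
    (Ψ : E ⊗[M] B ≃ₐc[E] MonoidAlgebra E (Multiplicative (Lat g))),
    ∃ act : (E ≃ₐ[M] E) →* AddMonoid.End (Lat g), IsAct Ψ act

/-- equivariant homomorphisms give points -/
def PTS : Prop :=
  ∀ (M E B : Type) [Field M] [Field E] [Algebra M E] [FiniteDimensional M E] [IsGalois M E]
    [CommRing B] [HopfAlgebra M B] (g : ℕ)
    (Ψ : E ⊗[M] B ≃ₐc[E] MonoidAlgebra E (Multiplicative (Lat g)))
    (act : (E ≃ₐ[M] E) →* AddMonoid.End (Lat g)), IsAct Ψ act →
    ∀ (C : Type) [CommRing C] [Algebra M C] (ψ : Multiplicative (Lat g) →* E ⊗[M] C),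
    (∀ (γ : E ≃ₐ[M] E) (x : Lat g),
      Algebra.TensorProduct.map (γ : E →ₐ[M] E) (AlgHom.id M C) (ψ (Multiplicative.ofAdd x)) =
        ψ (Multiplicative.ofAdd (act γ x))) →
    ∃ t : B →ₐ[M] C, ∀ x : Lat g,
      Algebra.TensorProduct.map (AlgHom.id M E) t (chi Ψ x) = ψ (Multiplicative.ofAdd x)

/-- `M`-valued points and characters -/
def PTSM : Prop :=
  ∀ (M E B : Type) [Field M] [Field E] [Algebra M E] [FiniteDimensional M E] [IsGalois M E]
    [CommRing B] [HopfAlgebra M B] (g : ℕ)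
    (Ψ : E ⊗[M] B ≃ₐc[E] MonoidAlgebra E (Multiplicative (Lat g)))
    (act : (E ≃ₐ[M] E) →* AddMonoid.End (Lat g)), IsAct Ψ act →
    ∃ Θ : WithConv (B →ₐ[M] M) ≃* EqHom act Eˣ, ∀ (t : WithConv (B →ₐ[M] M)) (x : Lat g),
      (((Θ t : Multiplicative (Lat g) →* Eˣ) (Multiplicative.ofAdd x) : Eˣ) : E) =
        chr Ψ t.ofConv x

/-- the universal norm -/
def UNI : Prop :=
  ∀ (R M S E B : Type) [CommRing R] [IsDomain R] [Field M] [Algebra R M] [IsFractionRing R M]
    [CommRing S] [IsDomain S] [Field E] [Algebra S E] [IsFractionRing S E] [Algebra R S]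
    [Algebra M E] [Algebra R E] [IsScalarTower R S E] [IsScalarTower R M E]
    [FiniteDimensional M E] [IsGalois M E] [IsIntegralClosure S R E]
    [CommRing B] [HopfAlgebra M B] (g : ℕ)
    (Ψ : E ⊗[M] B ≃ₐc[E] MonoidAlgebra E (Multiplicative (Lat g)))
    (act : (E ≃ₐ[M] E) →* AddMonoid.End (Lat g)) (ι : Type) [Fintype ι]
    (b : Module.Basis ι R S), IsAct Ψ act →
    ∃ (f : MvPolynomial (Fin g × ι) R)
      (φ : B →ₐ[M] Localization.Away (MvPolynomial.map (algebraMap R M) f)),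
      (∀ a : Fin g × ι → R, IsUnit (MvPolynomial.eval a f) ↔
        ∀ i, IsUnit (∑ k, a (i, k) • b k)) ∧
      ∀ (a : Fin g × ι → R)
        (e : Localization.Away (MvPolynomial.map (algebraMap R M) f) →ₐ[M] M),
        IsUnit (MvPolynomial.eval a f) →
        (∀ i, e (algebraMap (MvPolynomial (Fin g × ι) M) _ (MvPolynomial.X i)) =
          algebraMap R M (a i)) →
        ∀ x : Lat g, chr Ψ (e.comp φ) x =
          ∏ γ : (E ≃ₐ[M] E), γ (∏ i, (algebraMap S E (∑ k, a (i, k) • b k)) ^ (act γ⁻¹ x i))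

/-- the function `h` whose values at the points are `χ(t) ρ(t)^a` -/
def HFUN : Prop :=
  ∀ (M E B : Type) [Field M] [Field E] [Algebra M E] [FiniteDimensional M E] [IsGalois M E]
    [CommRing B] [HopfAlgebra M B] (g : ℕ)
    (Ψ : E ⊗[M] B ≃ₐc[E] MonoidAlgebra E (Multiplicative (Lat g)))
    (act : (E ≃ₐ[M] E) →* AddMonoid.End (Lat g)) (χ : Lat g) (a : ℕ)
    (η : (E ≃ₐ[M] E) → Lat g), IsAct Ψ act → 0 < a → (∀ γ, act γ χ = χ + a • η γ) →
    IsDomain B ∧ ∃ h : B, h ≠ 0 ∧ ∀ t : B →ₐ[M] M, ∃ ρ : E,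
      (∀ γ : E ≃ₐ[M] E, γ ρ = chr Ψ t (- η γ) * ρ) ∧
      algebraMap M E (t h) = chr Ψ t χ * ρ ^ a

end Hopf

/-! ### Cohomology -/

section Coh

/-- A module `V` killed by `p` over a finite `p`-group with `H^1 = 0` is weakly coinduced. -/
def COH1 : Prop :=
  ∀ (p : ℕ) [Fact p.Prime] (G : Type) [Group G] [Fintype G] (V : Type) [AddCommGroup V]
    [DistribMulAction G V], IsPGroup p G → (∀ v : V, p • v = 0) →
    (∀ c : G → V, (∀ γ δ, c (γ * δ) = c γ + γ • c δ) → ∃ v, ∀ γ, c γ = γ • v - v) →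
    ∃ pr : V →+ V, ∀ v, ∑ γ : G, γ • pr (γ⁻¹ • v) = v

/-- The norm is surjective on equivariant homomorphisms from a lattice. -/
def COH2 : Prop :=
  ∀ (p : ℕ) [Fact p.Prime] (G : Type) [Group G] [Fintype G] (C : Type) [CommGroup C]
    [MulDistribMulAction G C] (g : ℕ) (act : G →* AddMonoid.End (Lat g)), IsPGroup p G →
    (∀ c : C, (∀ γ : G, γ • c = c) → ∃ d : C, ∏ γ : G, γ • d = c) →
    (∀ c : G → C, (∀ γ δ, c (γ * δ) = c γ * γ • c δ) → ∃ d, ∀ γ, c γ = γ • d / d) →
    ∀ ψ ∈ EqHom act C, ∃ f : Multiplicative (Lat g) →* C, NT act f = ψ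

/-- traces of ideals in a wild extension of prime degree -/
def TRC : Prop :=
  ∀ (R M S E : Type) [CommRing R] [IsDomain R] [IsDiscreteValuationRing R]
    [IsAdicComplete (IsLocalRing.maximalIdeal R) R] [IsAlgClosed (IsLocalRing.ResidueField R)]
    [Field M] [Algebra R M] [IsFractionRing R M] [Field E] [Algebra M E] [Algebra R E]
    [IsScalarTower R M E] [FiniteDimensional M E] [IsGalois M E]
    [CommRing S] [IsDomain S] [IsDiscreteValuationRing S] [Algebra R S] [Algebra S E]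
    [IsScalarTower R S E] [IsIntegralClosure S R E] (p : ℕ) [Fact p.Prime]
    [CharP (IsLocalRing.ResidueField R) p], Module.finrank M E = p →
    ∃ t : ℕ, 1 ≤ t ∧ ∀ (m : ℕ) (x : R),
      (∃ s ∈ IsLocalRing.maximalIdeal S ^ m,
        algebraMap R M x = Algebra.trace M E (algebraMap S E s)) ↔
      x ∈ IsLocalRing.maximalIdeal R ^ (((p - 1) * (t + 1) + m) / p)

/-- the norm of a Galois extension of prime degree of a complete field with algebraically closed
residue field is surjective -/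
def NPRIME : Prop :=
  ∀ (R M E : Type) [CommRing R] [IsDomain R] [IsDiscreteValuationRing R]
    [IsAdicComplete (IsLocalRing.maximalIdeal R) R] [IsAlgClosed (IsLocalRing.ResidueField R)]
    [Field M] [Algebra R M] [IsFractionRing R M] [Field E] [Algebra M E]
    [FiniteDimensional M E] [IsGalois M E],
    (Module.finrank M E).Prime → ∀ a : M, ∃ b : E, Algebra.norm M b = a

/-- the same for degree a prime power -/
def NPOW : Prop :=
  ∀ (R M E : Type) [CommRing R] [IsDomain R] [IsDiscreteValuationRing R]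
    [IsAdicComplete (IsLocalRing.maximalIdeal R) R] [IsAlgClosed (IsLocalRing.ResidueField R)]
    [Field M] [Algebra R M] [IsFractionRing R M] [Field E] [Algebra M E]
    [FiniteDimensional M E] [IsGalois M E] (l r : ℕ),
    l.Prime → Module.finrank M E = l ^ r → ∀ a : M, ∃ b : E, Algebra.norm M b = a

/-- the norm on `Hom(X, Eˣ)` is surjective -/
def SURJ : Prop :=
  ∀ (R M E : Type) [CommRing R] [IsDomain R] [IsDiscreteValuationRing R]
    [IsAdicComplete (IsLocalRing.maximalIdeal R) R] [IsAlgClosed (IsLocalRing.ResidueField R)]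
    [Field M] [Algebra R M] [IsFractionRing R M] [Field E] [Algebra M E]
    [FiniteDimensional M E] [IsGalois M E] (g : ℕ)
    (act : (E ≃ₐ[M] E) →* AddMonoid.End (Lat g)),
    ∀ ψ ∈ EqHom act Eˣ, ∃ f : Multiplicative (Lat g) →* Eˣ, NT act f = ψ

end Coh

/-! ### Arithmetic -/

section Arith

/-- integral closures in finite separable extensions -/
def EXT : Prop :=
  ∀ (R M S E : Type) [CommRing R] [IsDomain R] [IsDiscreteValuationRing R]
    [IsAdicComplete (IsLocalRing.maximalIdeal R) R] [IsAlgClosed (IsLocalRing.ResidueField R)]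
    [Field M] [Algebra R M] [IsFractionRing R M] [Field E] [Algebra M E] [Algebra R E]
    [IsScalarTower R M E] [FiniteDimensional M E] [Algebra.IsSeparable M E]
    [CommRing S] [IsDomain S] [Algebra R S] [Algebra S E] [IsScalarTower R S E]
    [IsIntegralClosure S R E],
    IsFractionRing S E ∧ Module.Finite R S ∧ Module.Free R S ∧
    ∃ _ : IsDiscreteValuationRing S,
      IsAdicComplete (IsLocalRing.maximalIdeal S) S ∧ IsAlgClosed (IsLocalRing.ResidueField S) ∧
      IsLocalHom (algebraMap R S) ∧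
      (∀ s : S, ∃ r : R, s - algebraMap R S r ∈ IsLocalRing.maximalIdeal S) ∧
      (IsLocalRing.maximalIdeal R).map (algebraMap R S) =
        IsLocalRing.maximalIdeal S ^ Module.finrank M E

/-- first half of `EXT` -/
def EXT1 : Prop :=
  ∀ (R M S E : Type) [CommRing R] [IsDomain R] [IsDiscreteValuationRing R]
    [IsAdicComplete (IsLocalRing.maximalIdeal R) R]
    [Field M] [Algebra R M] [IsFractionRing R M] [Field E] [Algebra M E] [Algebra R E]
    [IsScalarTower R M E] [FiniteDimensional M E] [Algebra.IsSeparable M E]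
    [CommRing S] [IsDomain S] [Algebra R S] [Algebra S E] [IsScalarTower R S E]
    [IsIntegralClosure S R E],
    IsFractionRing S E ∧ Module.Finite R S ∧ Module.Free R S ∧ IsDiscreteValuationRing S

/-- second half of `EXT` -/
def EXT2 : Prop :=
  ∀ (R M S E : Type) [CommRing R] [IsDomain R] [IsDiscreteValuationRing R]
    [IsAdicComplete (IsLocalRing.maximalIdeal R) R] [IsAlgClosed (IsLocalRing.ResidueField R)]
    [Field M] [Algebra R M] [IsFractionRing R M] [Field E] [Algebra M E] [Algebra R E]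
    [IsScalarTower R M E] [FiniteDimensional M E] [Algebra.IsSeparable M E]
    [CommRing S] [IsDomain S] [IsDiscreteValuationRing S] [Algebra R S] [Algebra S E]
    [IsScalarTower R S E] [IsIntegralClosure S R E] [IsFractionRing S E] [Module.Finite R S]
    [Module.Free R S],
      IsAdicComplete (IsLocalRing.maximalIdeal S) S ∧ IsAlgClosed (IsLocalRing.ResidueField S) ∧
      IsLocalHom (algebraMap R S) ∧
      (∀ s : S, ∃ r : R, s - algebraMap R S r ∈ IsLocalRing.maximalIdeal S) ∧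
      (IsLocalRing.maximalIdeal R).map (algebraMap R S) =
        IsLocalRing.maximalIdeal S ^ Module.finrank M E

/-- divisibility of units -/
def DIVU : Prop :=
  ∀ (R : Type) [CommRing R] [IsDomain R] [IsDiscreteValuationRing R]
    [IsAdicComplete (IsLocalRing.maximalIdeal R) R] [IsAlgClosed (IsLocalRing.ResidueField R)]
    (n : ℕ) (u : Rˣ), (n : IsLocalRing.ResidueField R) ≠ 0 → ∃ v : Rˣ, v ^ n = u

/-- The uniformiser `ϖ` of `S` has the ramification property: for `γ` of `p`-power order,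
`γ ϖ = ϖ (1 + π s)`. -/
def RamProp (p : ℕ) (R M S E : Type) [CommRing R] [Field M] [Algebra R M] [CommRing S] [Field E]
    [Algebra S E] [Algebra R S] [Algebra M E] (ϖ : S) : Prop :=
  ∀ (γ : E ≃ₐ[M] E) (k : ℕ) (π : R), γ ^ (p ^ k) = 1 → Irreducible π →
    ∃ s : S, γ (algebraMap S E ϖ) = algebraMap S E (ϖ * (1 + algebraMap R S π * s))

/-- the ramification estimate -/
def RAM : Prop :=
  ∀ (O K L R M S E : Type) [CommRing O] [IsDomain O] [IsDiscreteValuationRing O]
    [IsAdicComplete (IsLocalRing.maximalIdeal O) O] [IsAlgClosed (IsLocalRing.ResidueField O)]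
    [Field K] [Algebra O K] [IsFractionRing O K]
    [Field L] [Algebra K L] [FiniteDimensional K L] [IsGalois K L]
    [Field M] [Algebra K M] [FiniteDimensional K M] [Algebra.IsSeparable K M]
    [Algebra O M] [IsScalarTower O K M]
    [Field E] [Algebra K E] [Algebra L E] [Algebra M E] [Algebra O E]
    [IsScalarTower K L E] [IsScalarTower K M E] [IsScalarTower O K E]
    [FiniteDimensional M E] [IsGalois M E]
    [CommRing R] [IsDomain R] [IsDiscreteValuationRing R] [Algebra O R] [Algebra R M]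
    [IsScalarTower O R M] [IsIntegralClosure R O M]
    [CommRing S] [IsDomain S] [IsDiscreteValuationRing S] [Algebra R S] [Algebra S E]
    [Algebra R E] [IsScalarTower R S E] [IsScalarTower R M E] [IsIntegralClosure S R E],
    IntermediateField.adjoin M (Set.range (algebraMap L E)) = ⊤ →
    (ringExpChar (IsLocalRing.ResidueField O)).Coprime (Module.finrank K M) →
    Module.finrank K L ≤ Module.finrank K M →
    ∃ ϖ : S, Irreducible ϖ ∧ RamProp (ringExpChar (IsLocalRing.ResidueField O)) R M S E ϖ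

/-- the homomorphism `D` -/
def DHOM : Prop :=
  ∀ (R M E : Type) [CommRing R] [IsDomain R] [IsDiscreteValuationRing R] [Field M] [Algebra R M]
    [IsFractionRing R M] [Field E] [Algebra M E] [FiniteDimensional M E] [IsGalois M E] (g : ℕ)
    (act : (E ≃ₐ[M] E) →* AddMonoid.End (Lat g)) (χ : Lat g) (a : ℕ)
    (η : (E ≃ₐ[M] E) → Lat g), 0 < a → (∀ γ, act γ χ = χ + a • η γ) →
    ∃ D : EqHom act Eˣ →* Multiplicative (ZMod a),
      ∀ (ψ : EqHom act Eˣ) (τ : Eˣ) (u : Rˣ) (π : R) (m : ℤ), Irreducible π →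
        (∀ γ : E ≃ₐ[M] E, γ • τ =
          (ψ : Multiplicative (Lat g) →* Eˣ) (Multiplicative.ofAdd (η γ)) * τ) →
        (((ψ : Multiplicative (Lat g) →* Eˣ) (Multiplicative.ofAdd χ) : Eˣ) : E) =
          algebraMap M E (algebraMap R M u * algebraMap R M π ^ m) * (τ : E) ^ a →
        D ψ = Multiplicative.ofAdd (m : ZMod a)

/-- the norm of `x ↦ w ^ z(x)` -/
def NTZ : Prop :=
  ∀ (M E : Type) [Field M] [Field E] [Algebra M E] [FiniteDimensional M E] [IsGalois M E] (g : ℕ)
    (act : (E ≃ₐ[M] E) →* AddMonoid.End (Lat g)) (χ : Lat g) (a : ℕ)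
    (η : (E ≃ₐ[M] E) → Lat g) (z : Lat g →+ ℤ) (w : Eˣ), 0 < a →
    (∀ γ, act γ χ = χ + a • η γ) →
    NT act (powHom w z) ∈ EqHom act Eˣ ∧
    ∃ τ : Eˣ, (∀ γ : E ≃ₐ[M] E, γ • τ =
        NT act (powHom w z) (Multiplicative.ofAdd (η γ)) * τ) ∧
      ((NT act (powHom w z) (Multiplicative.ofAdd χ) : Eˣ) : E) =
        algebraMap M E (Algebra.norm M (w : E)) ^ (z χ) * (τ : E) ^ a

/-- the criterion for an element of the dual lattice to be in the augmentation submodule -/
def LAT : Prop :=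
  ∀ (G : Type) [Group G] [Fintype G] (g : ℕ) (act : G →* AddMonoid.End (Lat g))
    (z : Lat g →+ ℤ),
    (∀ (χ : Lat g) (a : ℕ), 0 < a → (∀ γ, ∃ η, act γ χ = χ + a • η) → (a : ℤ) ∣ z χ) →
    ∃ y : G → (Lat g →+ ℤ), ∀ x, z x = ∑ γ, (y γ (act γ⁻¹ x) - y γ x)

/-- splitting of a quotient of abelian groups -/
def FGA : Prop :=
  ∀ (P : Type) [CommGroup P] (P0 P1 : Subgroup P), P1 ≤ P0 → Group.FG (P ⧸ P0) →
    (∀ (l j : ℕ) (q : P), l.Prime → q ^ (l ^ j) ∈ P0 →
      ∃ q' : P, q / q' ∈ P0 ∧ q' ^ (l ^ j) ∈ P1) →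
    ∃ Λ : Subgroup P, (∀ t : P, ∃ s ∈ Λ, t / s ∈ P0) ∧ Λ ⊓ P0 ≤ P1

/-- finite groups of integral matrices -/
def MINK : Prop :=
  ∀ (G : Type) [Group G] [Finite G] (g : ℕ) (act : G →* AddMonoid.End (Lat g)),
    Function.Injective act → Nat.card G ≤ 3 ^ (g ^ 2)

/-- the arithmetic core -/
def ARF : Prop :=
  ∀ (R M S E : Type) [CommRing R] [IsDomain R] [IsDiscreteValuationRing R]
    [IsAdicComplete (IsLocalRing.maximalIdeal R) R] [IsAlgClosed (IsLocalRing.ResidueField R)]
    [Field M] [Algebra R M] [IsFractionRing R M] [Field E] [Algebra M E] [Algebra R E]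
    [IsScalarTower R M E] [FiniteDimensional M E] [IsGalois M E]
    [CommRing S] [IsDomain S] [IsDiscreteValuationRing S] [Algebra R S] [Algebra S E]
    [IsScalarTower R S E] [IsIntegralClosure S R E] (g : ℕ)
    (act : (E ≃ₐ[M] E) →* AddMonoid.End (Lat g)) (ϖ : S) (π : R)
    (P0 P1 : Subgroup (EqHom act Eˣ)),
    Irreducible ϖ → Irreducible π →
    RamProp (ringExpChar (IsLocalRing.ResidueField R)) R M S E ϖ → P1 ≤ P0 →
    (∀ (f : Multiplicative (Lat g) →* Eˣ) (ψ : EqHom act Eˣ),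
      (∀ x, ∃ v : Sˣ, ((f x : Eˣ) : E) = algebraMap S E v) →
      (ψ : Multiplicative (Lat g) →* Eˣ) = NT act f → ψ ∈ P0) →
    (∀ (f : Multiplicative (Lat g) →* Eˣ) (ψ : EqHom act Eˣ),
      (∀ x, ∃ s : S, ((f x : Eˣ) : E) = algebraMap S E (1 + algebraMap R S π * s)) →
      (ψ : Multiplicative (Lat g) →* Eˣ) = NT act f → ψ ∈ P1) →
    (∀ (χ : Lat g) (a : ℕ) (η : (E ≃ₐ[M] E) → Lat g) (ψ : EqHom act Eˣ) (τ : Eˣ) (u : Rˣ)
      (m : ℤ), 0 < a → (∀ γ, act γ χ = χ + a • η γ) → ψ ∈ P0 →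
      (∀ γ : E ≃ₐ[M] E, γ • τ =
        (ψ : Multiplicative (Lat g) →* Eˣ) (Multiplicative.ofAdd (η γ)) * τ) →
      (((ψ : Multiplicative (Lat g) →* Eˣ) (Multiplicative.ofAdd χ) : Eˣ) : E) =
        algebraMap M E (algebraMap R M u * algebraMap R M π ^ m) * (τ : E) ^ a →
      (a : ℤ) ∣ m) →
    ∃ Λ : Subgroup (EqHom act Eˣ), (∀ t : EqHom act Eˣ, ∃ l ∈ Λ, t / l ∈ P0) ∧ Λ ⊓ P0 ≤ P1

end Arith

/-! ### Splitting fields -/

section Split

/-- a torus of dimension `g` is split by a Galois extension of degree at most `3^(g^2)` -/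
def SPLF : Prop :=
  ∀ (K A : Type) [Field K] [CommRing A] [HopfAlgebra K A] (g : ℕ), IsTorus K A g →
    ∃ (L : Type) (_ : Field L) (_ : Algebra K L), FiniteDimensional K L ∧ IsGalois K L ∧
      Module.finrank K L ≤ 3 ^ (g ^ 2) ∧
      Nonempty (L ⊗[K] A ≃ₐc[L] MonoidAlgebra L (Multiplicative (Lat g)))

/-- composites of field extensions -/
def CMPF : Prop :=
  ∀ (K L M : Type) [Field K] [Field L] [Algebra K L] [FiniteDimensional K L] [IsGalois K L]
    [Field M] [Algebra K M] [FiniteDimensional K M] [Algebra.IsSeparable K M],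
    ∃ (E : Type) (_ : Field E) (_ : Algebra K E) (_ : Algebra L E) (_ : Algebra M E),
      IsScalarTower K L E ∧ IsScalarTower K M E ∧ FiniteDimensional M E ∧ IsGalois M E ∧
      IntermediateField.adjoin M (Set.range (algebraMap L E)) = ⊤

/-- passage to the fixed field of the kernel of the action on the characters -/
def SPD : Prop :=
  ∀ (K F A : Type) [Field K] [Field F] [Algebra K F] [FiniteDimensional K F] [IsGalois K F]
    [CommRing A] [HopfAlgebra K A] (g : ℕ)
    (Ψ : F ⊗[K] A ≃ₐc[F] MonoidAlgebra F (Multiplicative (Lat g)))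
    (act : (F ≃ₐ[K] F) →* AddMonoid.End (Lat g)), IsAct Ψ act →
    Nonempty (IntermediateField.fixedField act.ker ⊗[K] A ≃ₐc[IntermediateField.fixedField act.ker]
      MonoidAlgebra (IntermediateField.fixedField act.ker) (Multiplicative (Lat g)))

/-- base change in stages -/
def BCH1 : Prop :=
  ∀ (K M E A : Type) [Field K] [Field M] [Algebra K M] [Field E]
    [Algebra K E] [Algebra M E] [IsScalarTower K M E] [CommRing A] [HopfAlgebra K A],
    Nonempty (E ⊗[M] (M ⊗[K] A) ≃ₐc[E] E ⊗[K] A)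

/-- base change of the group algebra -/
def BCH2 : Prop :=
  ∀ (L E : Type) [Field L] [Field E] [Algebra L E] (A : Type) [CommRing A] [HopfAlgebra L A]
    (g : ℕ), Nonempty (A ≃ₐc[L] MonoidAlgebra L (Multiplicative (Lat g))) →
    Nonempty (E ⊗[L] A ≃ₐc[E] MonoidAlgebra E (Multiplicative (Lat g)))

/-- base change of the splitting -/
def BCH : Prop :=
  ∀ (K L M E A : Type) [Field K] [Field L] [Algebra K L] [Field M] [Algebra K M] [Field E]
    [Algebra K E] [Algebra L E] [Algebra M E] [IsScalarTower K L E] [IsScalarTower K M E]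
    [CommRing A] [HopfAlgebra K A] (g : ℕ),
    Nonempty (L ⊗[K] A ≃ₐc[L] MonoidAlgebra L (Multiplicative (Lat g))) →
    Nonempty (E ⊗[M] (M ⊗[K] A) ≃ₐc[E] MonoidAlgebra E (Multiplicative (Lat g)))

end Split

end Pool.Agent.Helper40.Nm
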