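import Pool.Agent.Helper40.Nm.Goals

/-!
Base change and the splitting field.
-/

open CategoryTheory AlgebraicGeometry Limits TensorProduct

namespace Pool.Agent.Helper40.Nm

theorem bch (h1 : BCH1) (h2 : BCH2) : BCH := by
  intro K L M E A _ _ _ _ _ _ _ _ _ _ _ _ _ g hΦ
  obtain ⟨a⟩ := h1 K M E A
  obtain ⟨b⟩ := h1 K L E A
  obtain ⟨c⟩ := h2 L E (L ⊗[K] A) g hΦ
  exact ⟨a.trans (b.symm.trans c)⟩

theorem splf (hS : SPD) (hA : ACT) (hM : MINK) (h1 : BCH1) (h2 : BCH2) : SPLF := by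
  intro K A _ _ _ g hT
  obtain ⟨L0, _, _, hfin, hsep, ⟨Φ⟩⟩ := hT
  have hsΩ : Algebra.IsSeparable K (SeparableClosure L0) :=
    Algebra.IsSeparable.trans K L0 (SeparableClosure L0)
  have hcl : IsSepClosure K (SeparableClosure L0) := ⟨inferInstance, hsΩ⟩
  have hgΩ : IsGalois K (SeparableClosure L0) := IsSepClosure.isGalois
  let F := IntermediateField.normalClosure K L0 (SeparableClosure L0)
  obtain ⟨b⟩ := h2 L0 F (L0 ⊗[K] A) g ⟨Φ⟩
  obtain ⟨c⟩ := h1 K L0 F A
  let Ψ := c.symm.trans b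
  have hgal : IsGalois K F := inferInstance
  obtain ⟨act, hact⟩ := hA K F A g Ψ
  have hs := hS K F A g Ψ act hact
  refine ⟨IntermediateField.fixedField act.ker, inferInstance, inferInstance, inferInstance,
    inferInstance, ?_, hs⟩
  rw [IntermediateField.finrank_eq_fixingSubgroup_index,
    IntermediateField.fixingSubgroup_fixedField, Subgroup.index]
  refine hM _ g (QuotientGroup.lift act.ker act (fun x hx => hx)) ?_
  intro x y hxy
  obtain ⟨x, rfl⟩ := QuotientGroup.mk_surjective x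
  obtain ⟨y, rfl⟩ := QuotientGroup.mk_surjective y
  simp only [QuotientGroup.lift_mk] at hxy
  rw [QuotientGroup.eq]
  rw [MonoidHom.mem_ker, map_mul, ← hxy, ← map_mul, inv_mul_cancel, map_one]

end Pool.Agent.Helper40.Nm
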