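import Pool.Agent.Helper40.Nm.Final
import Pool.Agent.Helper40.Nm.Split
import Pool.Agent.Helper31.Nm.SEC
import Pool.Agent.Helper89.Nm.Mult
import Pool.Agent.Helper8.Nm.LIFTK
import Pool.Agent.Helper27.Nm.NAFF
import Pool.Agent.Helper86.Nm.GenA
import Pool.Agent.Helper73.Nm.GEN
import Pool.Agent.Helper82.Nm.Kpt
import Pool.Agent.Helper5.Nm.Trans
import Pool.Agent.Helper83.Nm.Loc
import Pool.Agent.Helper89.Nm.Compg
import Pool.Agent.Helper83.Nm.Fins
import Pool.Agent.Helper89.Nm.Act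
import Pool.Agent.Helper80.Nm.PTS
import Pool.Agent.Helper8.Nm.PTSM
import Pool.Agent.Helper26.Nm.UNI
import Pool.Agent.Helper70.Nm.HFun
import Pool.Agent.Helper83.Nm.Coh1
import Pool.Agent.Helper18.Nm.Trc
import Pool.Agent.Helper36.Nm.NPrime
import Pool.Agent.Helper96.Nm.NPow
import Pool.Agent.Helper32.Nm.Surj
import Pool.Agent.Helper67.Nm.EXT1
import Pool.Agent.Helper15.Nm.Ext2
import Pool.Agent.Helper97.Nm.Divu
import Pool.Agent.Helper6.Nm.Dhom
import Pool.Agent.Helper97.Nm.Ntz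
import Pool.Agent.Helper37.Nm.LatP
import Pool.Agent.Helper45.Nm.FGA
import Pool.Agent.Helper37.Nm.Mink
import Pool.Agent.Helper61.Nm.ARF
import Pool.Agent.Helper82.Nm.Bch1
import Pool.Agent.Helper37.Nm.Bch2
import Pool.Agent.Helper36.Nm.Ram
import Pool.Agent.Helper11.Nm.CMPF
import Pool.Agent.Helper48.Nm.SPD
import Pool.Agent.Helper53.Nm.Coh2

/-!
Putting the parts together.
-/

namespace Pool.Agent.Helper40.Nm

theorem extT : EXT := ext_of Helper67.Nm.ext1 Helper15.Nm.ext2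

theorem main_all : Main := by
  have hE := extT
  have hDU : DIVU := Helper97.Nm.divu
  have hSEC : SEC := Helper31.Nm.sec
  have hMULT : MULT := Helper89.Nm.mult
  have hLIFTK : LIFTK := Helper8.Nm.liftk
  have hKPT : KPT := Helper82.Nm.kpt hLIFTK
  have hTRANS : TRANS := Helper5.Nm.trans
  have hPTS : PTS := Helper80.Nm.pts
  have hNP : NPRIME := Helper36.Nm.nprime (Helper18.Nm.trc hE) hE hDU
  have hSURJ : SURJ := Helper32.Nm.surj (Helper53.Nm.coh2 Helper83.Nm.coh1) (Helper96.Nm.npow hNP hE) hE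
  have hARF : ARF := Helper61.Nm.arf hSURJ Helper97.Nm.ntz Helper37.Nm.lat Helper45.Nm.fga hDU hE
  have hACT : ACT := Helper89.Nm.act
  have hcore : CORE := core hSEC hMULT (Helper27.Nm.naff hSEC)
    (Helper73.Nm.gen Helper86.Nm.gena hSEC) (Helper83.Nm.loc hSEC hMULT hKPT hTRANS)
    (Helper89.Nm.compg hTRANS) (Helper83.Nm.fins hSEC hMULT hKPT) hACT (Helper8.Nm.ptsm hPTS)
    (Helper26.Nm.uni hPTS) Helper70.Nm.hfun Helper6.Nm.dhom hARF hE
  exact main_of hcore
    (splf Helper48.Nm.spd hACT Helper37.Nm.mink Helper82.Nm.bch1 Helper37.Nm.bch2) Helper11.Nm.cmpf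
    (bch Helper82.Nm.bch1 Helper37.Nm.bch2) (Helper36.Nm.ram hE hDU) hE

end Pool.Agent.Helper40.Nm
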