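import Pool.Agent.Helper40.Nm.Goals

/-!
Assembly: the core.
-/

open CategoryTheory AlgebraicGeometry Limits TensorProduct

namespace Pool.Agent.Helper40.Nm

theorem ext_of (h1 : EXT1) (h2 : EXT2) : EXT := by
  intro R M S E _ _ _ _ _ _ _ _ _ _ _ _ _ _ _ _ _ _ _ _
  obtain ⟨hf, hfin, hfree, hdvr⟩ := h1 R M S E
  have := hf; have := hfin; have := hfree; have := hdvr
  exact ⟨hf, hfin, hfree, hdvr, h2 R M S E⟩

section basic

variable {R : Type} [CommRing R] [IsLocalRing R] {G : Over (Spec (CommRingCat.of R))}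

theorem cpt_mem (s : specOver (RingHom.id R) ⟶ G) : cpt s ∈ specialFibre G := by
  have h := Over.w s
  simp only [specialFibre, cpt, Set.mem_preimage]
  have h2 : (s.left ≫ G.hom) (IsLocalRing.closedPoint R) = IsLocalRing.closedPoint R := by
    have h3 : s.left ≫ G.hom = 𝟙 _ := by
      rw [h]
      simp
    rw [h3]
    rfl
  exact h2

theorem SameComp.refl (s : specOver (RingHom.id R) ⟶ G) : SameComp s s :=
  mem_connectedComponentIn (cpt_mem s)

theorem SameComp.symm {s s' : specOver (RingHom.id R) ⟶ G} (h : SameComp s s') :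
    SameComp s' s := by
  unfold SameComp at *
  rw [← connectedComponentIn_eq h]
  exact mem_connectedComponentIn (cpt_mem s)

theorem SameComp.trans {s s' s'' : specOver (RingHom.id R) ⟶ G} (h : SameComp s s')
    (h' : SameComp s' s'') : SameComp s s'' := by
  unfold SameComp at *
  rw [connectedComponentIn_eq h]
  exact h'

theorem cpt_eq_redk (s : specOver (RingHom.id R) ⟶ G) :
    (redk s).left (IsLocalRing.closedPoint (IsLocalRing.ResidueField R)) = cpt s := by
  have h1 : (redk s).left = (closedIncl R).left ≫ s.left := rfl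
  rw [h1]
  have h2 : (closedIncl R).left (IsLocalRing.closedPoint (IsLocalRing.ResidueField R)) =
      IsLocalRing.closedPoint R := by
    change PrimeSpectrum.comap (IsLocalRing.residue R) _ = _
    apply PrimeSpectrum.ext
    simp [IsLocalRing.closedPoint]
  change s.left ((closedIncl R).left _) = s.left _
  rw [h2]

theorem sameComp_of_redk {s s' : specOver (RingHom.id R) ⟶ G} (h : redk s = redk s') :
    SameComp s s' := by
  have h1 : cpt s = cpt s' := by rw [← cpt_eq_redk, ← cpt_eq_redk, h]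
  unfold SameComp
  rw [h1]
  exact mem_connectedComponentIn (cpt_mem s')

end basic

section sections

variable {R M B : Type} [CommRing R] [IsDomain R] [IsLocalRing R] [Field M] [Algebra R M]
    [IsFractionRing R M] [CommRing B] [HopfAlgebra M B]

/-- the isomorphism between points and sections -/
theorem exists_sec (h1 : SEC) (h2 : MULT) (𝒢 : NeronLftModel R M B) :
    ∃ σ : WithConv (B →ₐ[M] M) ≃* (specOver (RingHom.id R) ⟶ 𝒢.G),
      ∀ t, Lifts 𝒢 t.ofConv (σ t) := by
  obtain ⟨ha, hb⟩ := h1 R M B 𝒢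
  obtain ⟨hm, -⟩ := h2 R M B 𝒢
  choose f hf hf' using fun t => ha t
  choose g hg hg' using fun s => hb s
  refine ⟨{ toFun := fun t => f t.ofConv, invFun := fun s => WithConv.toConv (g s),
            left_inv := ?_, right_inv := ?_, map_mul' := ?_ }, ?_⟩
  · intro t
    have := hg' (f t.ofConv) t.ofConv (hf _)
    simp only [← this]
  · intro s
    exact (hf' (g s) s (hg s)).symm
  · intro t t'
    exact (hf' (t * t').ofConv _ (hm t t' _ _ (hf _) (hf _))).symm
  · intro t
    exact hf _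

/-- reduction as a homomorphism -/
theorem exists_redHom (h2 : MULT) (𝒢 : NeronLftModel R M B) :
    ∃ ρ : (specOver (RingHom.id R) ⟶ 𝒢.G) →* (specOver (IsLocalRing.residue R) ⟶ 𝒢.G),
      ∀ s, ρ s = redk s := by
  obtain ⟨-, hm⟩ := h2 R M B 𝒢
  exact ⟨MonoidHom.mk' redk hm, fun _ => rfl⟩

end sections

/-- The core. -/
def CORE : Prop :=
  ∀ (R M S E B : Type) [CommRing R] [IsDomain R] [IsDiscreteValuationRing R]
    [IsAdicComplete (IsLocalRing.maximalIdeal R) R] [IsAlgClosed (IsLocalRing.ResidueField R)]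
    [Field M] [Algebra R M] [IsFractionRing R M] [Field E] [Algebra M E] [Algebra R E]
    [IsScalarTower R M E] [FiniteDimensional M E] [IsGalois M E]
    [CommRing S] [IsDomain S] [IsDiscreteValuationRing S] [Algebra R S] [Algebra S E]
    [IsScalarTower R S E] [IsIntegralClosure S R E] [CommRing B] [HopfAlgebra M B] (g : ℕ)
    (_ : E ⊗[M] B ≃ₐc[E] MonoidAlgebra E (Multiplicative (Lat g))) (ϖ : S),
    Irreducible ϖ → RamProp (ringExpChar (IsLocalRing.ResidueField R)) R M S E ϖ →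
    ∀ 𝒢 : NeronLftModel R M B, 𝒢.SplitReduction

/-- evaluation at a point of the open set `f ≠ 0` -/
theorem exists_eval {R M : Type} [CommRing R] [Field M] [Algebra R M]
    {N : Type} (f : MvPolynomial N R) (a : N → R) (ha : IsUnit (MvPolynomial.eval a f)) :
    ∃ e : Localization.Away (MvPolynomial.map (algebraMap R M) f) →ₐ[M] M,
      ∀ i, e (algebraMap (MvPolynomial N M) _ (MvPolynomial.X i)) = algebraMap R M (a i) := by
  let e0 : MvPolynomial N M →ₐ[M] M := MvPolynomial.aeval (fun i => algebraMap R M (a i))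
  have hu : IsUnit (e0 (MvPolynomial.map (algebraMap R M) f)) := by
    have : e0 (MvPolynomial.map (algebraMap R M) f) = algebraMap R M (MvPolynomial.eval a f) := by
      simp only [e0]
      rw [MvPolynomial.aeval_map_algebraMap]
      exact MvPolynomial.aeval_algebraMap_apply M a f
    rw [this]
    exact ha.map _
  refine ⟨IsLocalization.liftAlgHom (M := Submonoid.powers (MvPolynomial.map (algebraMap R M) f))
    (f := e0) ?_, ?_⟩
  · rintro ⟨y, n, rfl⟩
    simpa using hu.pow n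
  · intro i
    rw [IsLocalization.liftAlgHom_apply, IsLocalization.lift_eq]
    simp [e0]

theorem hom_eq_prod {C : Type} [CommGroup C] {g : ℕ} (f : Multiplicative (Lat g) →* C)
    (y : Lat g) : f (Multiplicative.ofAdd y) =
      ∏ i, f (Multiplicative.ofAdd (Pi.single i 1)) ^ (y i) := by
  have h : y = ∑ i, y i • (Pi.single i 1 : Lat g) := by
    ext j
    simp [Finset.sum_apply, Pi.single_apply]
  conv_lhs => rw [h]
  rw [ofAdd_sum, map_prod]
  refine Finset.prod_congr rfl fun i _ => ?_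
  rw [ofAdd_zsmul, map_zpow]

section cond

variable {R M S E B : Type} [CommRing R] [IsDomain R] [IsDiscreteValuationRing R]
    [IsAdicComplete (IsLocalRing.maximalIdeal R) R] [IsAlgClosed (IsLocalRing.ResidueField R)]
    [Field M] [Algebra R M] [IsFractionRing R M] [Field E] [Algebra M E] [Algebra R E]
    [IsScalarTower R M E] [FiniteDimensional M E] [IsGalois M E]
    [CommRing S] [IsDomain S] [IsDiscreteValuationRing S] [Algebra R S] [Algebra S E]
    [IsScalarTower R S E] [IsIntegralClosure S R E] [CommRing B] [HopfAlgebra M B] {g : ℕ}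

theorem NT_apply (act : (E ≃ₐ[M] E) →* AddMonoid.End (Lat g))
    (f : Multiplicative (Lat g) →* Eˣ) (x : Lat g) :
    ((NT act f (Multiplicative.ofAdd x) : Eˣ) : E) =
      ∏ γ : (E ≃ₐ[M] E), γ (∏ i, ((f (Multiplicative.ofAdd (Pi.single i 1)) : Eˣ) : E) ^
        (act γ⁻¹ x i)) := by
  rw [NT, MonoidHom.finsetProd_apply, Units.coe_prod]
  refine Finset.prod_congr rfl fun γ _ => ?_
  have : (tr act γ f) (Multiplicative.ofAdd x) = γ • f (Multiplicative.ofAdd (act γ⁻¹ x)) := rfl
  rw [this, hom_eq_prod]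
  change γ ((∏ i, _ : Eˣ) : E) = _
  rw [Units.coe_prod]
  simp only [Units.val_zpow_eq_zpow_val]

theorem point_eq (huni : UNI) (hext : EXT)
    (Ψ : E ⊗[M] B ≃ₐc[E] MonoidAlgebra E (Multiplicative (Lat g)))
    (act : (E ≃ₐ[M] E) →* AddMonoid.End (Lat g)) (hact : IsAct Ψ act)
    (Θ : WithConv (B →ₐ[M] M) ≃* EqHom act Eˣ)
    (hΘ : ∀ (t : WithConv (B →ₐ[M] M)) (x : Lat g),
      (((Θ t : Multiplicative (Lat g) →* Eˣ) (Multiplicative.ofAdd x) : Eˣ) : E) =
        chr Ψ t.ofConv x) :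
    ∃ (ι : Type) (_ : Fintype ι) (F : MvPolynomial (Fin g × ι) R)
      (φ : B →ₐ[M] Localization.Away (MvPolynomial.map (algebraMap R M) F))
      (c : (Fin g → S) → (Fin g × ι → R)),
      (∀ v v' : Fin g → S, ∀ (π : R), (∀ i, ∃ s : S, v i - v' i = algebraMap R S π * s) →
        ∀ q, π ∣ c v q - c v' q) ∧
      ∀ (f : Multiplicative (Lat g) →* Eˣ) (ψ : EqHom act Eˣ) (v : Fin g → Sˣ),
        (∀ i, ((f (Multiplicative.ofAdd (Pi.single i 1)) : Eˣ) : E) = algebraMap S E (v i)) →
        (ψ : Multiplicative (Lat g) →* Eˣ) = NT act f →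
        IsUnit (MvPolynomial.eval (c fun i => (v i : S)) F) ∧
        ∃ e : Localization.Away (MvPolynomial.map (algebraMap R M) F) →ₐ[M] M,
          (∀ i, e (algebraMap (MvPolynomial (Fin g × ι) M) _ (MvPolynomial.X i)) =
            algebraMap R M (c (fun i => (v i : S)) i)) ∧
          Θ.symm ψ = WithConv.toConv (e.comp φ) := by
  obtain ⟨hfr, hfin, hfree, -⟩ := hext R M S E
  let b := Module.Free.chooseBasis R S
  obtain ⟨F, φ, hF, hchr⟩ := huni R M S E B g Ψ act (Module.Free.ChooseBasisIndex R S) b hact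
  refine ⟨Module.Free.ChooseBasisIndex R S, inferInstance, F, φ, fun v q => b.repr (v q.1) q.2,
    ?_, ?_⟩
  · intro v v' π h q
    obtain ⟨s, hs⟩ := h q.1
    have : (b.repr (v q.1)) q.2 - (b.repr (v' q.1)) q.2 = π * b.repr s q.2 := by
      rw [← Finsupp.sub_apply, ← map_sub, hs, ← Algebra.smul_def, map_smul]
      rfl
    simp only [this]
    exact dvd_mul_right _ _
  · intro f ψ v hv hψ
    have hsum : ∀ i, ∑ k, b.repr (v i : S) k • b k = (v i : S) := fun i => b.sum_repr _
    have hu : IsUnit (MvPolynomial.eval (fun q : Fin g × Module.Free.ChooseBasisIndex R S =>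
        b.repr (v q.1 : S) q.2) F) := by
      rw [hF]
      intro i
      simp only [hsum]
      exact (v i).isUnit
    obtain ⟨e, he⟩ := exists_eval (M := M) F _ hu
    refine ⟨hu, e, he, ?_⟩
    rw [MulEquiv.symm_apply_eq]
    apply Subtype.ext
    apply MonoidHom.ext
    intro x
    apply Units.ext
    obtain ⟨x, rfl⟩ := Multiplicative.ofAdd.surjective x
    rw [hΘ, hψ, NT_apply]
    have := hchr _ e hu he x
    rw [this]
    simp only [hsum, hv]

end cond

/-- A unit valued homomorphism. -/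
theorem units_of_mem {S E : Type} [CommRing S] [IsDomain S] [Field E] [Algebra S E]
    [FaithfulSMul S E] {g : ℕ} (f : Multiplicative (Lat g) →* Eˣ) (Q : S → Prop)
    (h : ∀ x, ∃ s : S, Q s ∧ ((f x : Eˣ) : E) = algebraMap S E s) :
    ∀ x, ∃ v : Sˣ, Q v ∧ ((f x : Eˣ) : E) = algebraMap S E v := by
  intro x
  obtain ⟨s, hs, h1⟩ := h x
  obtain ⟨s', hs', h2⟩ := h x⁻¹
  have h3 : s * s' = 1 := by
    apply FaithfulSMul.algebraMap_injective S E
    rw [map_mul, ← h1, ← h2, map_inv, map_one, Units.mul_inv]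
  exact ⟨⟨s, s', h3, by rw [mul_comm]; exact h3⟩, hs, h1⟩

theorem core (h1 : SEC) (h2 : MULT) (hN : NAFF) (hG : GEN) (hL : LOC) (hC : COMPG) (hF : FINS)
    (hA : ACT) (hP : PTSM) (hU : UNI) (hH : HFUN) (hD : DHOM) (hAr : ARF) (hE : EXT) : CORE := by
  intro R M S E B _ _ _ _ _ _ _ _ _ _ _ _ _ _ _ _ _ _ _ _ _ _ _ g Ψ ϖ hϖ hram 𝒢
  obtain ⟨act, hact⟩ := hA M E B g Ψ
  obtain ⟨Θ, hΘ⟩ := hP M E B g Ψ act hact
  obtain ⟨σ, hσ⟩ := exists_sec h1 h2 𝒢
  obtain ⟨ρ, hρ⟩ := exists_redHom h2 𝒢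
  obtain ⟨π, hπ⟩ := IsDiscreteValuationRing.exists_irreducible R
  have hSE : IsFractionRing S E := (hE R M S E).1
  let sec : EqHom act Eˣ ≃* (specOver (RingHom.id R) ⟶ 𝒢.G) := Θ.symm.trans σ
  have hc := hC R M B 𝒢
  let P0 : Subgroup (EqHom act Eˣ) :=
    { carrier := {ψ | SameComp (1 : specOver (RingHom.id R) ⟶ 𝒢.G) (sec ψ)}
      mul_mem' := by
        intro a b ha hb
        have := hc 1 (sec a) 1 (sec b) ha hb
        rw [mul_one] at this
        simpa using this
      one_mem' := by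
        simpa using SameComp.refl (1 : specOver (RingHom.id R) ⟶ 𝒢.G)
      inv_mem' := by
        intro a ha
        have := hc (sec a)⁻¹ (sec a)⁻¹ 1 (sec a) (SameComp.refl _) ha
        rw [mul_one, inv_mul_cancel] at this
        simpa using this.symm }
  let P1 : Subgroup (EqHom act Eˣ) := (ρ.comp sec.toMonoidHom).ker
  have hP0 : ∀ ψ, ψ ∈ P0 ↔ SameComp (1 : specOver (RingHom.id R) ⟶ 𝒢.G) (sec ψ) :=
    fun _ => Iff.rfl
  have hP1 : ∀ ψ, ψ ∈ P1 ↔ redk (sec ψ) = 1 := by
    intro ψ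
    rw [← hρ]
    exact Iff.rfl
  have h10 : P1 ≤ P0 := by
    intro ψ hψ
    rw [hP0]
    rw [hP1] at hψ
    apply sameComp_of_redk
    rw [hψ, ← hρ, map_one]
  obtain ⟨ι, hι, F, φ, c, hcc, hpt⟩ := point_eq hU hE (R := R) (S := S) Ψ act hact Θ hΘ
  have key : ∀ (f : Multiplicative (Lat g) →* Eˣ) (ψ : EqHom act Eˣ) (v : Fin g → Sˣ),
      (∀ i, ((f (Multiplicative.ofAdd (Pi.single i 1)) : Eˣ) : E) = algebraMap S E (v i)) →
      (ψ : Multiplicative (Lat g) →* Eˣ) = NT act f →
      ψ ∈ P0 ∧ ((∀ i, ∃ s : S, (v i : S) - 1 = algebraMap R S π * s) → ψ ∈ P1) := by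
    intro f ψ v hv hψ
    obtain ⟨hu, e, he, hee⟩ := hpt f ψ v hv hψ
    have h1f : (1 : EqHom act Eˣ) = (NT act (1 : Multiplicative (Lat g) →* Eˣ)) := by
      apply MonoidHom.ext
      intro x
      apply Units.ext
      obtain ⟨x, rfl⟩ := Multiplicative.ofAdd.surjective x
      rw [NT_apply]
      simp
    obtain ⟨hu', e', he', hee'⟩ := hpt 1 1 (fun _ => 1) (by simp) h1f
    have hl : Lifts 𝒢 (e.comp φ) (sec ψ) := by
      have := hσ (Θ.symm ψ)
      rw [hee] at this
      rw [show sec ψ = σ (Θ.symm ψ) from rfl, hee]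
      exact this
    have hl' : Lifts 𝒢 (e'.comp φ) (sec 1) := by
      have := hσ (Θ.symm 1)
      rw [hee'] at this
      rw [show sec 1 = σ (Θ.symm 1) from rfl, hee']
      exact this
    obtain ⟨ha, hb⟩ := hN R M B 𝒢 (Fin g × ι) F φ _ _ e e' (sec ψ) (sec 1) hu hu' he he' hl hl'
    rw [map_one] at ha hb
    refine ⟨ha.symm, fun hv1 => ?_⟩
    rw [hP1, hb, ← hρ, map_one]
    intro q
    obtain ⟨r, hr⟩ := hcc (fun i => (v i : S)) (fun _ => 1) π hv1 q
    simp only [Units.val_one]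
    rw [hr]
    exact Ideal.mul_mem_right _ _ ((IsLocalRing.mem_maximalIdeal _).2 hπ.not_isUnit)
  have hc3 : ∀ (χ : Lat g) (a : ℕ) (η : (E ≃ₐ[M] E) → Lat g) (ψ : EqHom act Eˣ) (τ : Eˣ) (u : Rˣ)
      (m : ℤ), 0 < a → (∀ γ, act γ χ = χ + a • η γ) → ψ ∈ P0 →
      (∀ γ : E ≃ₐ[M] E, γ • τ =
        (ψ : Multiplicative (Lat g) →* Eˣ) (Multiplicative.ofAdd (η γ)) * τ) →
      (((ψ : Multiplicative (Lat g) →* Eˣ) (Multiplicative.ofAdd χ) : Eˣ) : E) =
        algebraMap M E (algebraMap R M u * algebraMap R M π ^ m) * (τ : E) ^ a →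
      (a : ℤ) ∣ m := by
    intro χ a η ψ τ u m ha hη hψ hτ hχ
    obtain ⟨D, hDD⟩ := hD R M E g act χ a η ha hη
    obtain ⟨hBd, h, hh, hval⟩ := hH M E B g Ψ act χ a η hact ha hη
    have hBd' := hBd
    obtain ⟨V, hV, m0, hm0⟩ := hG R M B 𝒢 h π hh hπ
    have hloc := hL R M B 𝒢 (Multiplicative (ZMod a)) (D.comp Θ.toMonoidHom) V
      (Multiplicative.ofAdd (m0 : ZMod a)) hV (by
        intro t s hs hsV
        obtain ⟨u0, hu0⟩ := hm0 t.ofConv s hs hsV
        obtain ⟨ρ0, hρ0, hρ1⟩ := hval t.ofConv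
        have hρne : ρ0 ≠ 0 := by
          rintro rfl
          rw [zero_pow ha.ne', mul_zero, map_eq_zero, hu0] at hρ1
          have h5 : algebraMap R M u0 ≠ 0 := by
            simpa using u0.ne_zero
          have h6 : algebraMap R M π ^ m0 ≠ 0 := by
            apply zpow_ne_zero
            simpa using hπ.ne_zero
          exact mul_ne_zero h5 h6 hρ1
        refine hDD (Θ t) (Units.mk0 ρ0 hρne)⁻¹ u0 π m0 hπ ?_ ?_
        · intro γ
          have h7 : γ • (Units.mk0 ρ0 hρne) =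
              ((Θ t : EqHom act Eˣ) : Multiplicative (Lat g) →* Eˣ)
                (Multiplicative.ofAdd (- η γ)) * Units.mk0 ρ0 hρne := by
            apply Units.ext
            rw [Units.val_mul, hΘ]
            exact hρ0 γ
          rw [smul_inv', h7, ofAdd_neg, map_inv]
          simp [mul_comm]
        · rw [hΘ, ← hu0, hρ1]
          simp only [Units.val_inv_eq_inv_val, Units.val_mk0]
          rw [mul_assoc, ← mul_pow, mul_inv_cancel₀ hρne, one_pow, mul_one])
    have h8 := hloc 1 (Θ.symm ψ) (sec 1) (sec ψ) (by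
        have := hσ (Θ.symm 1)
        rw [map_one] at this
        rw [show sec 1 = σ (Θ.symm 1) from rfl, map_one]
        exact this) (hσ (Θ.symm ψ)) (by rw [map_one]; exact hψ)
    have h9 : D ψ = 1 := by
      rw [map_one] at h8
      simpa using h8.symm
    rw [hDD ψ τ u π m hπ hτ hχ] at h9
    have h10 : (m : ZMod a) = 0 := Multiplicative.ofAdd.injective h9
    exact (ZMod.intCast_zmod_eq_zero_iff_dvd m a).1 h10
  obtain ⟨Λ, hΛ1, hΛ2⟩ := hAr R M S E g act ϖ π P0 P1 hϖ hπ hram h10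
    (by
      intro f ψ hf hψ
      choose v hv using fun i : Fin g => hf (Multiplicative.ofAdd (Pi.single i 1))
      exact (key f ψ v hv hψ).1)
    (by
      intro f ψ hf hψ
      have := units_of_mem f (fun s => ∃ s', s = 1 + algebraMap R S π * s') (by
        intro x
        obtain ⟨s, hs⟩ := hf x
        exact ⟨_, ⟨s, rfl⟩, hs⟩)
      choose v hv1 hv using fun i : Fin g => this (Multiplicative.ofAdd (Pi.single i 1))
      refine (key f ψ v hv hψ).2 ?_
      intro i
      obtain ⟨s, hs⟩ := hv1 i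
      exact ⟨s, by rw [hs]; ring⟩) hc3
  refine hF R M B 𝒢 (Λ.map sec.toMonoidHom) ?_ ?_
  · intro s
    obtain ⟨t, rfl⟩ := sec.surjective s
    obtain ⟨l, hl, hl2⟩ := hΛ1 t
    refine ⟨sec l, ⟨l, hl, rfl⟩, ?_⟩
    have := hc 1 (sec (t / l)) (sec l) (sec l) hl2 (SameComp.refl _)
    rw [one_mul, ← map_mul, div_mul_cancel] at this
    exact this.symm
  · rintro _ ⟨l, hl, rfl⟩ _ ⟨l', hl', rfl⟩ hll
    have : l / l' ∈ P0 := by
      rw [hP0]
      have := hc (sec l) (sec l') (sec l')⁻¹ (sec l')⁻¹ hll (SameComp.refl _)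
      rw [mul_inv_cancel] at this
      rw [map_div, div_eq_mul_inv]
      exact this.symm
    have h3 : l / l' ∈ P1 := hΛ2 ⟨Λ.div_mem hl hl', this⟩
    rw [hP1, ← hρ, map_div, map_div, hρ, hρ] at h3
    exact div_eq_one.1 h3

end Pool.Agent.Helper40.Nm
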