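import Mathlib

/-!
Neron lft models of algebraic tori and split reduction (MP_f619a5_ag).
-/

open CategoryTheory AlgebraicGeometry Limits TensorProduct

namespace Pool.Agent.Helper40.Nm

/-- `A` is the Hopf algebra of an algebraic torus of dimension `g` over the field `K`:
over some finite separable extension `L` of `K` it becomes isomorphic, as a bialgebra, to the
group algebra of `ℤ^g`. -/
def IsTorus (K A : Type) [Field K] [CommRing A] [HopfAlgebra K A] (g : ℕ) : Prop :=
  ∃ (L : Type) (_ : Field L) (_ : Algebra K L), FiniteDimensional K L ∧ Algebra.IsSeparable K L ∧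
    Nonempty (L ⊗[K] A ≃ₐc[L] MonoidAlgebra L (Multiplicative (Fin g → ℤ)))

/-- `Spec C` as a scheme over `Spec R`, for a ring homomorphism `R → C`. -/
noncomputable abbrev specOver {R C : Type} [CommRing R] [CommRing C] (f : R →+* C) :
    Over (Spec (CommRingCat.of R)) :=
  Over.mk (Spec.map (CommRingCat.ofHom f))

/-- For a group object `G` of a category with finite products the set of morphisms `X ⟶ G` is a
group. -/
noncomputable instance homGroup {C : Type*} [Category C] [CartesianMonoidalCategory C] (X G : C)
    [GrpObj G] : Group (X ⟶ G) := Hom.group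

/-- A Neron lft model over the domain `R` (with fraction field `M`) of the affine group scheme
`Spec B` over `M`: a smooth separated group scheme `G` over `R` with a cartesian square
`Spec B = G ×_R M`, compatible with the group laws, such that for every smooth `R`-scheme `Y`
every `M`-morphism `Y ×_R M ⟶ Spec B` extends uniquely to an `R`-morphism `Y ⟶ G`. -/
structure NeronLftModel (R M B : Type) [CommRing R] [Field M] [Algebra R M] [CommRing B]
    [HopfAlgebra M B] where
  /-- the group scheme -/
  G : Over (Spec (CommRingCat.of R))
  /-- its group law -/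
  grp : GrpObj G
  smooth : Smooth G.hom
  separated : IsSeparated G.hom
  /-- the inclusion of the generic fibre -/
  j : Spec (CommRingCat.of B) ⟶ G.left
  isPullback : IsPullback j (Spec.map (CommRingCat.ofHom (algebraMap M B))) G.hom
    (Spec.map (CommRingCat.ofHom (algebraMap R M)))
  j_mul : ∀ (C : Type) [CommRing C] [Algebra M C] (u v : WithConv (B →ₐ[M] C))
    (p q r : specOver ((algebraMap M C).comp (algebraMap R M)) ⟶ G),
    p.left = Spec.map (CommRingCat.ofHom u.ofConv.toRingHom) ≫ j →
    q.left = Spec.map (CommRingCat.ofHom v.ofConv.toRingHom) ≫ j →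
    r.left = Spec.map (CommRingCat.ofHom (u * v).ofConv.toRingHom) ≫ j → p * q = r
  neron : ∀ (Y : Over (Spec (CommRingCat.of R))), Smooth Y.hom →
    ∀ u : pullback Y.hom (Spec.map (CommRingCat.ofHom (algebraMap R M))) ⟶
      Spec (CommRingCat.of B),
    u ≫ Spec.map (CommRingCat.ofHom (algebraMap M B)) = pullback.snd _ _ →
    ∃! v : Y ⟶ G, pullback.fst _ _ ≫ v.left = u ≫ j

attribute [instance] NeronLftModel.grp

/-- The special fibre of a scheme over a local ring, as a subset of the space. -/
def specialFibre {R : Type} [CommRing R] [IsLocalRing R]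
    (G : Over (Spec (CommRingCat.of R))) : Set G.left :=
  G.hom ⁻¹' {IsLocalRing.closedPoint R}

/-- Split reduction (the residue field `k` of `R` being algebraically closed): there is a
subgroup `Λ` of the group `G(k)` of rational points of the special fibre which has
exactly one element in every connected component of the special fibre. -/
def NeronLftModel.SplitReduction {R M B : Type} [CommRing R] [IsLocalRing R] [Field M]
    [Algebra R M] [CommRing B] [HopfAlgebra M B] (𝒢 : NeronLftModel R M B) : Prop :=
  ∃ Λ : Subgroup (specOver (IsLocalRing.residue R) ⟶ 𝒢.G),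
    ∀ x ∈ specialFibre 𝒢.G, ∃! s : specOver (IsLocalRing.residue R) ⟶ 𝒢.G, s ∈ Λ ∧
      s.left (IsLocalRing.closedPoint (IsLocalRing.ResidueField R)) ∈
        connectedComponentIn (specialFibre 𝒢.G) x

/-- The main statement. -/
def Main : Prop :=
  ∀ (g : ℕ) (O K R M A : Type) [CommRing O] [IsDomain O] [IsDiscreteValuationRing O]
    [IsAdicComplete (IsLocalRing.maximalIdeal O) O] [IsAlgClosed (IsLocalRing.ResidueField O)]
    [Field K] [Algebra O K] [IsFractionRing O K]
    [Field M] [Algebra K M] [Algebra O M] [IsScalarTower O K M] [FiniteDimensional K M]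
    [Algebra.IsSeparable K M]
    [CommRing R] [IsDomain R] [IsDiscreteValuationRing R] [Algebra O R] [Algebra R M]
    [IsScalarTower O R M] [IsIntegralClosure R O M]
    [CommRing A] [HopfAlgebra K A],
    IsTorus K A g →
    (ringExpChar (IsLocalRing.ResidueField O)).Coprime (Module.finrank K M) →
    3 ^ (g ^ 2) ≤ Module.finrank K M →
    ∀ 𝒢 : NeronLftModel R M (M ⊗[K] A), 𝒢.SplitReduction

end Pool.Agent.Helper40.Nm
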