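import Pool.Agent.Helper40.Nm.Defs

/-!
Internal definitions for the proof.
-/

open CategoryTheory AlgebraicGeometry Limits TensorProduct

namespace Pool.Agent.Helper40.Nm

section Scheme

variable {R M B : Type} [CommRing R] [Field M] [Algebra R M] [CommRing B] [HopfAlgebra M B]

/-- the section `s` of the Neron model extends the `M`-valued point `t` -/
def Lifts (𝒢 : NeronLftModel R M B) (t : B →ₐ[M] M) (s : specOver (RingHom.id R) ⟶ 𝒢.G) : Prop :=
  Spec.map (CommRingCat.ofHom (algebraMap R M)) ≫ s.left =
    Spec.map (CommRingCat.ofHom t.toRingHom) ≫ 𝒢.j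

/-- the inclusion of the closed point of `Spec R` -/
noncomputable def closedIncl (R : Type) [CommRing R] [IsLocalRing R] :
    specOver (IsLocalRing.residue R) ⟶ specOver (RingHom.id R) :=
  Over.homMk (Spec.map (CommRingCat.ofHom (IsLocalRing.residue R))) (by
    simp)

/-- the reduction of a section -/
noncomputable def redk [IsLocalRing R] {G : Over (Spec (CommRingCat.of R))}
    (s : specOver (RingHom.id R) ⟶ G) : specOver (IsLocalRing.residue R) ⟶ G :=
  closedIncl R ≫ s

/-- the point of the special fibre given by a section -/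
noncomputable def cpt [IsLocalRing R] {G : Over (Spec (CommRingCat.of R))}
    (s : specOver (RingHom.id R) ⟶ G) : G.left :=
  s.left (IsLocalRing.closedPoint R)

/-- `s` and `s'` reduce to points of the same connected component of the special fibre -/
def SameComp [IsLocalRing R] {G : Over (Spec (CommRingCat.of R))}
    (s s' : specOver (RingHom.id R) ⟶ G) : Prop :=
  cpt s' ∈ connectedComponentIn (specialFibre G) (cpt s)

end Scheme

section Hopf

variable {M E B : Type} [Field M] [Field E] [Algebra M E] [CommRing B] [HopfAlgebra M B] {g : ℕ}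

/-- the lattice `ℤ^g` -/
abbrev Lat (g : ℕ) : Type := Fin g → ℤ

/-- the function on `T_E` given by the character `x` -/
noncomputable def chi (Ψ : E ⊗[M] B ≃ₐc[E] MonoidAlgebra E (Multiplicative (Lat g))) (x : Lat g) :
    E ⊗[M] B :=
  Ψ.symm (MonoidAlgebra.single (Multiplicative.ofAdd x) 1)

/-- `act` is the action of the Galois group on the characters -/
def IsAct (Ψ : E ⊗[M] B ≃ₐc[E] MonoidAlgebra E (Multiplicative (Lat g)))
    (act : (E ≃ₐ[M] E) →* AddMonoid.End (Lat g)) : Prop :=
  ∀ (γ : E ≃ₐ[M] E) (x : Lat g),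
    Algebra.TensorProduct.map (γ : E →ₐ[M] E) (AlgHom.id M B) (chi Ψ x) = chi Ψ (act γ x)

/-- the value at the `M`-valued point `t` of a function on `T_E` -/
noncomputable def evE (t : B →ₐ[M] M) : E ⊗[M] B →ₐ[E] E :=
  Algebra.TensorProduct.lift (AlgHom.id E E) ((Algebra.ofId M E).comp t) (fun _ _ => Commute.all _ _)

/-- the value of the character `x` at the point `t` -/
noncomputable def chr (Ψ : E ⊗[M] B ≃ₐc[E] MonoidAlgebra E (Multiplicative (Lat g)))
    (t : B →ₐ[M] M) (x : Lat g) : E := evE t (chi Ψ x)

end Hopf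

section Arith

variable {G C : Type} [Group G] [CommGroup C] [MulDistribMulAction G C] {g : ℕ}

/-- equivariant homomorphisms `ℤ^g → C` -/
def EqHom (act : G →* AddMonoid.End (Lat g)) (C : Type) [CommGroup C] [MulDistribMulAction G C] :
    Subgroup (Multiplicative (Lat g) →* C) where
  carrier := {ψ | ∀ (γ : G) (x : Lat g),
    γ • ψ (Multiplicative.ofAdd x) = ψ (Multiplicative.ofAdd (act γ x))}
  mul_mem' := by
    intro a b ha hb γ x
    simp only [MonoidHom.mul_apply, smul_mul', ha γ x, hb γ x]
  one_mem' := by
    intro γ x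
    simp
  inv_mem' := by
    intro a ha γ x
    simp only [MonoidHom.inv_apply, smul_inv', ha γ x]

/-- the translate `x ↦ γ (f (γ⁻¹ x))` -/
def tr (act : G →* AddMonoid.End (Lat g)) (γ : G) (f : Multiplicative (Lat g) →* C) :
    Multiplicative (Lat g) →* C where
  toFun x := γ • f (Multiplicative.ofAdd (act γ⁻¹ (Multiplicative.toAdd x)))
  map_one' := by simp
  map_mul' := by
    intro a b
    simp [toAdd_mul, map_add, ofAdd_add]

/-- the norm of a homomorphism `ℤ^g → C` -/
noncomputable def NT [Fintype G] (act : G →* AddMonoid.End (Lat g)) (f : Multiplicative (Lat g) →* C) :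
    Multiplicative (Lat g) →* C :=
  ∏ γ : G, tr act γ f

/-- the homomorphism `x ↦ w ^ (z x)` -/
noncomputable def powHom (w : C) (z : Lat g →+ ℤ) : Multiplicative (Lat g) →* C where
  toFun x := w ^ (z (Multiplicative.toAdd x))
  map_one' := by simp
  map_mul' := by
    intro a b
    simp [toAdd_mul, map_add, zpow_add]

end Arith

end Pool.Agent.Helper40.Nm
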