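import Pool.Agent.Helper40.Nm.Core

/-!
Assembly: the final statement.
-/

open CategoryTheory AlgebraicGeometry Limits TensorProduct

namespace Pool.Agent.Helper40.Nm

theorem main_of (hcore : CORE) (hS : SPLF) (hC : CMPF) (hB : BCH) (hR : RAM) (hE : EXT) :
    Main := by
  intro g O K R M A _ _ _ _ _ _ _ _ _ _ _ _ _ _ _ _ _ _ _ _ _ _ _ htor hcop hdeg 𝒢
  obtain ⟨L, _, _, hLfin, hLgal, hLdeg, ⟨Φ⟩⟩ := hS K A g htor
  obtain ⟨E, _, _, _, _, ht1, ht2, hEf, hEg, hadj⟩ := hC K L M
  obtain ⟨hfr, hfin, hfree, hdvr, hcpl, hac, hlh, hres, hram⟩ := hE O K R M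
  let _ : Algebra R E := ((algebraMap M E).comp (algebraMap R M)).toAlgebra
  have : IsScalarTower R M E := IsScalarTower.of_algebraMap_eq' rfl
  let _ : Algebra O E := ((algebraMap K E).comp (algebraMap O K)).toAlgebra
  have : IsScalarTower O K E := IsScalarTower.of_algebraMap_eq' rfl
  obtain ⟨hfr', hfin', hfree', hdvr', hcpl', hac', hlh', hres', hram'⟩ :=
    hE R M (integralClosure R E) E
  obtain ⟨Ψ⟩ := hB K L M E A g ⟨Φ⟩
  obtain ⟨ϖ, hϖ, hrp⟩ := hR O K L R M (integralClosure R E) E hadj hcop (hLdeg.trans hdeg)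
  have hchar : ringExpChar (IsLocalRing.ResidueField O) =
      ringExpChar (IsLocalRing.ResidueField R) := by
    have h1 := expChar_of_injective_ringHom
      (IsLocalRing.ResidueField.map (algebraMap O R)).injective
      (ringExpChar (IsLocalRing.ResidueField O))
    exact (ringExpChar.eq _ _).symm
  rw [hchar] at hrp
  exact hcore R M (integralClosure R E) E (M ⊗[K] A) g Ψ ϖ hϖ hrp 𝒢

end Pool.Agent.Helper40.Nm
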